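import Mathlib

/-! Drift of a cookie stack and of a random cookie environment. -/

set_option autoImplicit false

open MeasureTheory Filter
open scoped ENNReal

namespace Pool.Agent.P.MP_c7fa75_pr.T

/-- The drift stored in the first `n` cookies of the stack `w`. -/
def psum (w : ℕ → ℝ) (n : ℕ) : ℝ := ∑ i ∈ Finset.range n, (2 * w i - 1)

/-- The total drift `S` of the stack `w`: the upper limit of the initial sums in `[-∞, ∞]`. -/
noncomputable def total (w : ℕ → ℝ) : EReal := limsup (fun n : ℕ => (psum w n : EReal)) atTop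

/-- The expected total drift `δ = E S⁺ - E S⁻` of the stack at the origin. -/
noncomputable def drift (P : Measure (ℤ → ℕ → ℝ)) : EReal :=
  ((∫⁻ ω, (total (ω 0)).toENNReal ∂P : ℝ≥0∞) : EReal) -
    ((∫⁻ ω, (-(total (ω 0))).toENNReal ∂P : ℝ≥0∞) : EReal)

/-- The oscillation of the initial drift sums from index `y` on. -/
noncomputable def osc (w : ℕ → ℝ) (y : ℕ) : ℝ≥0∞ :=
  ⨆ m : ℕ, ⨆ n : ℕ, ENNReal.ofReal |psum w (y + m) - psum w (y + n)|

end Pool.Agent.P.MP_c7fa75_pr.T
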