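import Mathlib

set_option autoImplicit false

open MeasureTheory Filter Topology Finset

namespace Pool.Agent.P.MP_c7fa75_pr

open Classical in
/-- position and local times of the walk driven by environment `e` and fair coins `c` -/
noncomputable def st (e : ℤ → ℕ → ℝ) (c : ℕ → Bool) : ℕ → ℤ × (ℤ → ℕ)
  | 0 => (0, fun _ => 0)
  | n + 1 =>
    (if e (st e c n).1 ((st e c n).2 (st e c n).1) = 1 ∨
        (e (st e c n).1 ((st e c n).2 (st e c n).1) = 1 / 2 ∧ c n = true)
      then (st e c n).1 + 1 else (st e c n).1 - 1,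
     fun x => if x = (st e c n).1 then (st e c n).2 x + 1 else (st e c n).2 x)

noncomputable def walk (e : ℤ → ℕ → ℝ) (c : ℕ → Bool) (n : ℕ) : ℤ := (st e c n).1

noncomputable def loc (e : ℤ → ℕ → ℝ) (c : ℕ → Bool) (n : ℕ) (x : ℤ) : ℕ := (st e c n).2 x

/-- the cookie used at time `n` -/
noncomputable def cook (e : ℤ → ℕ → ℝ) (c : ℕ → Bool) (n : ℕ) : ℝ :=
  e (walk e c n) (loc e c n (walk e c n))

variable (e : ℤ → ℕ → ℝ) (c : ℕ → Bool)

theorem walk_zero : walk e c 0 = 0 := rfl

theorem loc_zero (x : ℤ) : loc e c 0 x = 0 := rfl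

open Classical in
theorem walk_succ (n : ℕ) : walk e c (n + 1) =
    if cook e c n = 1 ∨ (cook e c n = 1 / 2 ∧ c n = true) then walk e c n + 1
    else walk e c n - 1 := rfl

theorem loc_succ (n : ℕ) (x : ℤ) :
    loc e c (n + 1) x = if x = walk e c n then loc e c n x + 1 else loc e c n x := rfl

theorem walk_step (n : ℕ) :
    walk e c (n + 1) = walk e c n + 1 ∨ walk e c (n + 1) = walk e c n - 1 := by
  rw [walk_succ]; split_ifs <;> simp

theorem loc_eq (n : ℕ) (x : ℤ) :
    loc e c n x = ((range n).filter (fun m => walk e c m = x)).card := by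
  induction n with
  | zero => simp [loc_zero]
  | succ n ih =>
    rw [loc_succ, range_add_one, filter_insert, ih]
    by_cases h : x = walk e c n
    · rw [if_pos h, if_pos h.symm, card_insert_of_notMem (by simp)]
    · rw [if_neg h, if_neg (Ne.symm h)]

theorem loc_le (n : ℕ) (x : ℤ) : loc e c n x ≤ n := by
  rw [loc_eq]; exact (card_filter_le _ _).trans (by simp)

theorem abs_walk_le (n : ℕ) : |walk e c n| ≤ n := by
  induction n with
  | zero => simp [walk_zero]
  | succ n ih =>
    rw [abs_le] at ih ⊢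
    rcases walk_step e c n with h | h <;> rw [h] <;> push_cast <;> constructor <;> omega

theorem st_congr {c c' : ℕ → Bool} (n : ℕ) (h : ∀ m < n, c m = c' m) : st e c n = st e c' n := by
  induction n with
  | zero => rfl
  | succ n ih =>
    have h1 := ih (fun m hm => h m (by omega))
    have h2 := h n (by omega)
    simp only [st, h1, h2]

theorem walk_congr {c c' : ℕ → Bool} (n : ℕ) (h : ∀ m < n, c m = c' m) :
    walk e c n = walk e c' n := by
  simp only [walk, st_congr e n h]

theorem cook_congr {c c' : ℕ → Bool} (n : ℕ) (h : ∀ m < n, c m = c' m) :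
    cook e c n = cook e c' n := by
  simp only [cook, walk, loc, st_congr e n h]

/-- environments with values in `{0, 1/2, 1}` -/
def Good (e : ℤ → ℕ → ℝ) : Prop := ∀ x n, e x n = 0 ∨ e x n = 1 / 2 ∨ e x n = 1

def sgn (b : Bool) : ℝ := if b = true then 1 else -1

theorem sgn_not (b : Bool) : sgn (!b) = - sgn b := by cases b <;> simp [sgn]

theorem abs_sgn (b : Bool) : |sgn b| = 1 := by cases b <;> simp [sgn]

open Classical in
noncomputable def fair (n : ℕ) : ℝ := if cook e c n = 1 / 2 then 1 else 0

theorem fair_congr {c c' : ℕ → Bool} (n : ℕ) (h : ∀ m < n, c m = c' m) :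
    fair e c n = fair e c' n := by
  simp only [fair, cook_congr e n h]

theorem abs_fair_le (n : ℕ) : |fair e c n| ≤ 1 := by
  unfold fair; split_ifs <;> simp

variable {e}

theorem walk_succ_real (he : Good e) (n : ℕ) :
    (walk e c (n + 1) : ℝ) = walk e c n + (2 * cook e c n - 1) + fair e c n * sgn (c n) := by
  have h : cook e c n = 0 ∨ cook e c n = 1 / 2 ∨ cook e c n = 1 := he _ _
  rw [walk_succ, fair]
  rcases h with h | h | h <;> rw [h] <;> cases hc : c n <;> norm_num [sgn] <;> ring

open Classical in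
theorem right_indicator (he : Good e) (n : ℕ) :
    (if walk e c (n + 1) = walk e c n + 1 then (1 : ℝ) else 0) =
      cook e c n + (fair e c n / 2) * sgn (c n) := by
  have h : cook e c n = 0 ∨ cook e c n = 1 / 2 ∨ cook e c n = 1 := he _ _
  have h1 : ¬ (walk e c n - 1 = walk e c n + 1) := by omega
  rw [walk_succ, fair]
  rcases h with h | h | h <;> rw [h] <;> cases hc : c n <;> norm_num [sgn, h1]

theorem sq_succ (he : Good e) (n : ℕ) :
    ((walk e c (n + 1) : ℝ) + 1) ^ 2 = ((walk e c n : ℝ) + 1) ^ 2 + 1 +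
      2 * ((walk e c n + 1) * (2 * cook e c n - 1)) +
      2 * (((walk e c n + 1) * fair e c n) * sgn (c n)) := by
  have h := walk_succ_real c he n
  have h2 : ((walk e c (n + 1) : ℝ) - walk e c n) ^ 2 = 1 := by
    rcases walk_step e c n with h | h <;> rw [h] <;> push_cast <;> ring
  have h3 : (walk e c (n + 1) : ℝ) - walk e c n =
      (2 * cook e c n - 1) + fair e c n * sgn (c n) := by linarith
  have : ((walk e c (n + 1) : ℝ) + 1) ^ 2 = ((walk e c n : ℝ) + 1) ^ 2 +
      ((walk e c (n + 1) : ℝ) - walk e c n) ^ 2 +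
      2 * (walk e c n + 1) * ((walk e c (n + 1) : ℝ) - walk e c n) := by ring
  rw [this, h2, h3]; ring

theorem sq_eq (he : Good e) (n : ℕ) :
    ((walk e c n : ℝ) + 1) ^ 2 = 1 + n +
      2 * ∑ i ∈ range n, ((walk e c i + 1) * (2 * cook e c i - 1)) +
      2 * ∑ i ∈ range n, (((walk e c i + 1) * fair e c i) * sgn (c i)) := by
  induction n with
  | zero => simp [walk_zero]
  | succ n ih => rw [sq_succ c he, ih, sum_range_succ, sum_range_succ]; push_cast; ring

/-- drift collected, sorted by site -/
theorem drift_eq (g : ℤ → ℝ) (Y : Finset ℤ) (n : ℕ) (hY : ∀ i < n, walk e c i ∈ Y) :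
    ∑ i ∈ range n, g (walk e c i) * (2 * cook e c i - 1) =
      ∑ y ∈ Y, g y * ∑ l ∈ range (loc e c n y), (2 * e y l - 1) := by
  induction n with
  | zero => simp [loc_zero]
  | succ n ih =>
    rw [sum_range_succ, ih (fun i hi => hY i (by omega))]
    have hn := hY n (by omega)
    rw [← add_sum_erase _ _ hn, ← add_sum_erase _ _ hn]
    have : ∑ y ∈ Y.erase (walk e c n), g y * ∑ l ∈ range (loc e c (n + 1) y), (2 * e y l - 1) =
        ∑ y ∈ Y.erase (walk e c n), g y * ∑ l ∈ range (loc e c n y), (2 * e y l - 1) := by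
      refine sum_congr rfl fun y hy => ?_
      rw [loc_succ, if_neg (ne_of_mem_erase hy)]
    rw [this, loc_succ, if_pos rfl, sum_range_succ, cook]
    ring

/-- the walk has stayed in `[0, b)` up to time `n` -/
def Alive (e : ℤ → ℕ → ℝ) (c : ℕ → Bool) (b : ℕ) (n : ℕ) : Prop :=
  ∀ m ≤ n, 0 ≤ walk e c m ∧ walk e c m < b

open Classical in
noncomputable def alive (e : ℤ → ℕ → ℝ) (c : ℕ → Bool) (b : ℕ) (n : ℕ) : ℝ :=
  if Alive e c b n then 1 else 0

theorem alive_congr {c c' : ℕ → Bool} (b n : ℕ) (h : ∀ m < n, c m = c' m) :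
    alive e c b n = alive e c' b n := by
  have : Alive e c b n ↔ Alive e c' b n := by
    refine forall₂_congr fun m hm => ?_
    rw [walk_congr e m (fun k hk => h k (by omega))]
  unfold alive
  by_cases h1 : Alive e c b n
  · rw [if_pos h1, if_pos (this.1 h1)]
  · rw [if_neg h1, if_neg (fun h2 => h1 (this.2 h2))]

theorem alive_bound (he : Good e) (hs : ∀ y l, 0 ≤ ∑ i ∈ range l, (2 * e y i - 1)) (b n : ℕ) :
    ∑ i ∈ range n, alive e c b i +
      2 * ∑ i ∈ range n, (alive e c b i * ((walk e c i + 1) * fair e c i)) * sgn (c i) ≤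
      ((b : ℝ) + 1) ^ 2 := by
  induction n with
  | zero => simp; positivity
  | succ n ih =>
    by_cases ha : Alive e c b n
    · have h1 : ∀ i ∈ range (n + 1), alive e c b i = 1 := by
        intro i hi
        have : Alive e c b i := fun m hm => ha m (by simp at hi; omega)
        simp [alive, this]
      have h1' : ∀ i ∈ range (n + 1),
          (alive e c b i * ((walk e c i + 1) * fair e c i)) * sgn (c i) =
          ((walk e c i + 1) * fair e c i) * sgn (c i) := fun i hi => by rw [h1 i hi, one_mul]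
      rw [sum_congr rfl h1, sum_congr rfl h1']
      have h2 := sq_eq c he (n + 1)
      have h3 := drift_eq c (e := e) (fun y => (y : ℝ) + 1) (Finset.Ico 0 (b : ℤ)) (n + 1)
        (fun i hi => by simpa using ha i (by omega))
      have h4 : 0 ≤ ∑ y ∈ Finset.Ico 0 (b : ℤ), ((y : ℝ) + 1) *
          ∑ l ∈ range (loc e c (n + 1) y), (2 * e y l - 1) := by
        refine sum_nonneg fun y hy => mul_nonneg ?_ (hs _ _)
        have : (0 : ℝ) ≤ y := by exact_mod_cast (Finset.mem_Ico.1 hy).1
        linarith
      have h5 : ((walk e c (n + 1) : ℝ) + 1) ^ 2 ≤ ((b : ℝ) + 1) ^ 2 := by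
        have h6 := ha n le_rfl
        have h7 : -1 ≤ walk e c (n + 1) ∧ walk e c (n + 1) ≤ b := by
          rcases walk_step e c n with h | h <;> omega
        have h8 : (-1 : ℝ) ≤ walk e c (n + 1) := by exact_mod_cast h7.1
        have h9 : (walk e c (n + 1) : ℝ) ≤ b := by exact_mod_cast h7.2
        exact pow_le_pow_left₀ (by linarith) (by linarith) 2
      simp only [sum_const, card_range, nsmul_eq_mul, mul_one]
      rw [← h3] at h4
      push_cast at h2 ⊢
      linarith
    · rw [sum_range_succ, sum_range_succ]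
      simp only [alive, if_neg ha] at ih ⊢
      simpa using ih

theorem stay_right {x : ℤ} {N : ℕ} (hx : ∀ l < N, e x l = 1) {i : ℕ} (hi : x ≤ walk e c i)
    (n : ℕ) (hin : i ≤ n) (hn : n ≤ N) : x ≤ walk e c n := by
  induction n, hin using Nat.le_induction with
  | base => exact hi
  | succ n hin ih =>
    have h1 := ih (by omega)
    rcases h1.eq_or_lt with h | h
    · have h2 : cook e c n = 1 := by
        rw [cook, ← h]
        exact hx _ (lt_of_le_of_lt (loc_le e c n x) (by omega))
      rw [walk_succ, if_pos (Or.inl h2)]; omega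
    · rcases walk_step e c n with h' | h' <;> omega

/-- deterministic transience criterion -/
theorem tendsto_of_blocks (b T : ℕ → ℕ) (hb : StrictMono b) (hb0 : b 0 = 0) (hb1 : b 1 = 1)
    (hT' : ∀ k, k ≤ T k)
    (hE : ∀ k, ∃ x : ℤ, (b k : ℤ) ≤ x ∧ x < b (k + 1) ∧ ∀ l < T (k + 1), e x l = 1)
    (hH : ∀ k, ¬ Alive e c (b (k + 2)) (T (k + 1))) :
    Tendsto (fun n => |walk e c n|) atTop atTop := by
  have step : ∀ k, (∀ i ≤ T (k + 1), 0 ≤ walk e c i) →
      (∀ i ≤ T (k + 2), 0 ≤ walk e c i) ∧
      (∀ i, T (k + 1) ≤ i → i ≤ T (k + 2) → (b (k + 1) : ℤ) ≤ walk e c i) := by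
    intro k hA
    obtain ⟨x, hx1, hx2, hx3⟩ := hE (k + 1)
    have h := hH k
    simp only [Alive, not_forall] at h
    obtain ⟨t, ht, ht'⟩ := h
    have h0 := hA t ht
    have hx2' : x < b (k + 2) := hx2
    have h1 : x ≤ walk e c t := by omega
    have h2 : ∀ i, t ≤ i → i ≤ T (k + 2) → (b (k + 1) : ℤ) ≤ walk e c i :=
      fun i hi hi' => hx1.trans (stay_right c hx3 h1 i hi hi')
    refine ⟨fun i hi => ?_, fun i hi hi' => h2 i (ht.trans hi) hi'⟩
    by_cases hit : i ≤ t
    · exact hA i (hit.trans ht)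
    · exact le_trans (by positivity) (h2 i (by omega) hi)
  have hA : ∀ k, ∀ i ≤ T (k + 1), 0 ≤ walk e c i := by
    intro k
    induction k with
    | zero =>
      obtain ⟨x, hx1, hx2, hx3⟩ := hE 0
      have hx : x = 0 := by
        simp only [zero_add, hb0, hb1] at hx1 hx2
        omega
      subst hx
      exact fun i hi => stay_right c hx3 (i := 0) (by simp [walk_zero]) i (Nat.zero_le _) hi
    | succ k ih => exact (step k ih).1
  have hB : ∀ k j, ∀ i, T (k + 1) ≤ i → i ≤ T (k + j + 1) → T (k + 1) < i →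
      (b (k + 1) : ℤ) ≤ walk e c i := by
    intro k j
    induction j with
    | zero => intro i h1 h2 h3; simp at h2; omega
    | succ j ih =>
      intro i h1 h2 h3
      by_cases h : i ≤ T (k + j + 1)
      · exact ih i h1 h h3
      · have h4 := (step (k + j) (hA (k + j))).2 i (by omega) h2
        have h5 : b (k + 1) ≤ b (k + j + 1) := hb.monotone (by omega)
        omega
  rw [tendsto_atTop_atTop]
  intro M
  refine ⟨T (M.toNat + 1) + 1, fun i hi => ?_⟩
  have h1 := hB M.toNat i i (by omega) (le_trans (by omega) (hT' (M.toNat + i + 1))) (by omega)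
  have h2 : M.toNat + 1 ≤ b (M.toNat + 1) := hb.le_apply
  have h3 := le_abs_self (walk e c i)
  omega

open Classical in
/-- the leftover environment -/
noncomputable def leftover (e : ℤ → ℕ → ℝ) (p : ℕ → ℤ) : ℤ → ℕ → ℝ := fun x n =>
  if Tendsto (fun m => |p m|) atTop atTop then e x (n + Nat.card {m : ℕ // p m = x}) else 1 / 2

theorem good_leftover (he : Good e) (p : ℕ → ℤ) : Good (leftover e p) := by
  intro x n
  unfold leftover
  split_ifs
  · exact he _ _
  · simp

section meas

variable {Θ : Type*} [MeasurableSpace Θ]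

theorem meas_app {α β : Type*} [MeasurableSpace α] [Countable α] [MeasurableSingletonClass α]
    [MeasurableSpace β] {f : Θ → α} (hf : Measurable f) {g : Θ → α → β}
    (hg : ∀ a, Measurable (fun θ => g θ a)) : Measurable (fun θ => g θ (f θ)) := by
  have : Measurable (fun q : Θ × α => g q.1 q.2) := measurable_from_prod_countable_left hg
  exact this.comp (measurable_id.prodMk hf)

theorem meas_env_app {E : Θ → ℤ → ℕ → ℝ} (hE : Measurable E) {x : Θ → ℤ} (hx : Measurable x)
    {l : Θ → ℕ} (hl : Measurable l) : Measurable (fun θ => E θ (x θ) (l θ)) := by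
  refine meas_app hl (g := fun θ l => E θ (x θ) l) fun a => ?_
  refine meas_app hx (g := fun θ x => E θ x a) fun y => ?_
  fun_prop

theorem meas_st {E : Θ → ℤ → ℕ → ℝ} (hE : Measurable E) {C : Θ → ℕ → Bool} (hC : Measurable C)
    (n : ℕ) : Measurable (fun θ => st (E θ) (C θ) n) := by
  induction n with
  | zero => exact measurable_const
  | succ n ih =>
    have h1 : Measurable (fun θ => (st (E θ) (C θ) n).1) := ih.fst
    have h2 : Measurable (fun θ => (st (E θ) (C θ) n).2) := ih.snd
    have h3 : Measurable (fun θ => (st (E θ) (C θ) n).2 (st (E θ) (C θ) n).1) :=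
      meas_app h1 (g := fun θ x => (st (E θ) (C θ) n).2 x) fun a =>
        (measurable_pi_apply a).comp h2
    have h4 := meas_env_app hE h1 h3
    have h5 : Measurable (fun θ => C θ n) := (measurable_pi_apply n).comp hC
    simp only [st]
    refine Measurable.prodMk ?_ ?_
    · refine Measurable.ite ?_ (h1.add_const 1) (h1.sub_const 1)
      exact (measurableSet_eq_fun h4 measurable_const).union
        ((measurableSet_eq_fun h4 measurable_const).inter (measurableSet_eq_fun h5 measurable_const))
    · refine measurable_pi_lambda _ fun x => ?_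
      have h6 : Measurable (fun θ => (st (E θ) (C θ) n).2 x) := (measurable_pi_apply x).comp h2
      exact Measurable.ite (measurableSet_eq_fun measurable_const h1) (h6.add_const 1) h6

theorem meas_walk {E : Θ → ℤ → ℕ → ℝ} (hE : Measurable E) {C : Θ → ℕ → Bool} (hC : Measurable C)
    (n : ℕ) : Measurable (fun θ => walk (E θ) (C θ) n) := (meas_st hE hC n).fst

theorem meas_cook {E : Θ → ℤ → ℕ → ℝ} (hE : Measurable E) {C : Θ → ℕ → Bool} (hC : Measurable C)
    (n : ℕ) : Measurable (fun θ => cook (E θ) (C θ) n) := by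
  refine meas_env_app hE (meas_walk hE hC n) ?_
  exact meas_app (meas_walk hE hC n) (g := fun θ x => loc (E θ) (C θ) n x) fun a =>
    (measurable_pi_apply a).comp (meas_st hE hC n).snd

theorem meas_fair {E : Θ → ℤ → ℕ → ℝ} (hE : Measurable E) {C : Θ → ℕ → Bool} (hC : Measurable C)
    (n : ℕ) : Measurable (fun θ => fair (E θ) (C θ) n) :=
  Measurable.ite (measurableSet_eq_fun (meas_cook hE hC n) measurable_const)
    measurable_const measurable_const

theorem measSet_alive {E : Θ → ℤ → ℕ → ℝ} (hE : Measurable E) {C : Θ → ℕ → Bool}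
    (hC : Measurable C) (b n : ℕ) : MeasurableSet {θ | Alive (E θ) (C θ) b n} := by
  have : {θ | Alive (E θ) (C θ) b n} =
      ⋂ m ∈ Set.Iic n, (fun θ => walk (E θ) (C θ) m) ⁻¹' {y | 0 ≤ y ∧ y < b} := by
    ext θ; simp [Alive]
  rw [this]
  exact MeasurableSet.biInter (Set.to_countable _) fun m _ =>
    meas_walk hE hC m (MeasurableSet.of_discrete)

theorem meas_alive {E : Θ → ℤ → ℕ → ℝ} (hE : Measurable E) {C : Θ → ℕ → Bool}
    (hC : Measurable C) (b n : ℕ) : Measurable (fun θ => alive (E θ) (C θ) b n) :=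
  Measurable.ite (measSet_alive hE hC b n) measurable_const measurable_const

theorem measSet_tendsto {p : Θ → ℕ → ℤ} (hp : Measurable p) :
    MeasurableSet {θ | Tendsto (fun m => |p θ m|) atTop atTop} := by
  have : {θ | Tendsto (fun m => |p θ m|) atTop atTop} =
      ⋂ M : ℤ, ⋃ N : ℕ, ⋂ m ∈ Set.Ici N, (fun θ => p θ m) ⁻¹' {y | M ≤ |y|} := by
    ext θ; simp [tendsto_atTop_atTop]
  rw [this]
  refine MeasurableSet.iInter fun M => MeasurableSet.iUnion fun N =>
    MeasurableSet.biInter (Set.to_countable _) fun m _ => ?_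
  exact ((measurable_pi_apply m).comp hp) MeasurableSet.of_discrete

theorem meas_leftover {E : Θ → ℤ → ℕ → ℝ} (hE : Measurable E) {p : Θ → ℕ → ℤ}
    (hp : Measurable p) : Measurable (fun θ => leftover (E θ) (p θ)) := by
  refine measurable_pi_lambda _ fun x => measurable_pi_lambda _ fun n => ?_
  refine Measurable.ite (measSet_tendsto hp) ?_ measurable_const
  refine meas_env_app hE measurable_const (Measurable.const_add ?_ n)
  have h1 : Measurable (fun θ => {m : ℕ | p θ m = x}) := by
    rw [measurable_set_iff]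
    intro m
    exact (Measurable.of_discrete (f := fun y : ℤ => y = x)).comp ((measurable_pi_apply m).comp hp)
  exact measurable_ncard.comp h1

end meas

end Pool.Agent.P.MP_c7fa75_pr
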